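import Mathlib

namespace Pool.Agent.Results.MP_aafbbc_al.Quaternion64

/-- The quaternions over `ZMod 64`. -/
abbrev Q : Type := Quaternion (ZMod 64)

/-- Reduction mod 2. -/
def c : ZMod 64 →+* ZMod 2 := ZMod.castHom (by norm_num) (ZMod 2)

lemma c_unit' : ∀ z : ZMod 64, c z = 1 → z ^ 15 * z = 1 := by decide

lemma c_unit (z : ZMod 64) (h : c z = 1) : ∃ w, w * z = 1 := ⟨_, c_unit' z h⟩

lemma two_cases : ∀ z : ZMod 64, 2 * z = 0 → z = 0 ∨ z = 32 := by decide

lemma c_cases (z : ZMod 64) (h : 2 * z = 0) : c z = 0 := by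
  rcases two_cases z h with rfl | rfl
  · rfl
  · rfl

/-- augmentation mod 2 -/
def aug (x : Q) : ZMod 2 := c x.re + c x.imI + c x.imJ + c x.imK

def p1 (x : Q) : ZMod 2 := c x.imI + c x.imK
def p2 (x : Q) : ZMod 2 := c x.imJ + c x.imK

lemma aux_aug : ∀ a b d e a' b' d' e' : ZMod 2,
    (a * a' - b * b' - d * d' - e * e') + (a * b' + b * a' + d * e' - e * d') +
    (a * d' - b * e' + d * a' + e * b') + (a * e' + b * d' - d * b' + e * a') =
    (a + b + d + e) * (a' + b' + d' + e') := by decide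

lemma aug_mul (x y : Q) : aug (x * y) = aug x * aug y := by
  simp only [aug, Quaternion.re_mul, Quaternion.imI_mul, Quaternion.imJ_mul,
    Quaternion.imK_mul, map_add, map_sub, map_mul]
  exact aux_aug _ _ _ _ _ _ _ _

lemma aug_unit (u : Qˣ) : aug (u : Q) = 1 := by
  have h := aug_mul (u : Q) ((u⁻¹ : Qˣ) : Q)
  rw [u.mul_inv] at h
  have h1 : aug (1 : Q) = 1 := by
    change c 1 + c 0 + c 0 + c 0 = 1
    simp
  rw [h1] at h
  revert h
  generalize aug (u : Q) = a
  generalize aug ((u⁻¹ : Qˣ) : Q) = b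
  revert a b
  decide

lemma aux_p1 : ∀ a b d e a' b' d' e' : ZMod 2, a + b + d + e = 1 → a' + b' + d' + e' = 1 →
    (a * b' + b * a' + d * e' - e * d') + (a * e' + b * d' - d * b' + e * a') =
    (b + e) + (b' + e') := by decide

lemma aux_p2 : ∀ a b d e a' b' d' e' : ZMod 2, a + b + d + e = 1 → a' + b' + d' + e' = 1 →
    (a * d' - b * e' + d * a' + e * b') + (a * e' + b * d' - d * b' + e * a') =
    (d + e) + (d' + e') := by decide

lemma p1_mul (u v : Qˣ) : p1 ((u * v : Qˣ) : Q) = p1 u + p1 v := by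
  rw [Units.val_mul]
  have hu := aug_unit u
  have hv := aug_unit v
  simp only [aug] at hu hv
  simp only [p1, Quaternion.imI_mul, Quaternion.imK_mul, map_add, map_sub, map_mul]
  exact aux_p1 _ _ _ _ _ _ _ _ hu hv

lemma p2_mul (u v : Qˣ) : p2 ((u * v : Qˣ) : Q) = p2 u + p2 v := by
  rw [Units.val_mul]
  have hu := aug_unit u
  have hv := aug_unit v
  simp only [aug] at hu hv
  simp only [p2, Quaternion.imJ_mul, Quaternion.imK_mul, map_add, map_sub, map_mul]
  exact aux_p2 _ _ _ _ _ _ _ _ hu hv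

/-- The cross product conditions coming from commutation. -/
lemma cross (x y : Q) (h : x * y = y * x) :
    2 * (x.imJ * y.imK - x.imK * y.imJ) = 0 ∧ 2 * (x.imK * y.imI - x.imI * y.imK) = 0 ∧
    2 * (x.imI * y.imJ - x.imJ * y.imI) = 0 := by
  have h1 := congrArg (fun z : Q => z.imI) h
  have h2 := congrArg (fun z : Q => z.imJ) h
  have h3 := congrArg (fun z : Q => z.imK) h
  simp only [Quaternion.imI_mul, Quaternion.imJ_mul, Quaternion.imK_mul] at h1 h2 h3
  refine ⟨?_, ?_, ?_⟩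
  · linear_combination h1
  · linear_combination h2
  · linear_combination h3

lemma aux_par : ∀ b d e b' d' e' : ZMod 2, (b + e, d + e) ≠ (0, 0) → (b' + e', d' + e') ≠ (0, 0) →
    d * e' - e * d' = 0 → e * b' - b * e' = 0 → b * d' - d * b' = 0 →
    (b + e, d + e) = (b' + e', d' + e') := by decide

/-- Commuting units with nonzero invariants have the same invariants. -/
lemma par (x y : Q) (h : x * y = y * x) (hx : (p1 x, p2 x) ≠ (0, 0)) (hy : (p1 y, p2 y) ≠ (0, 0)) :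
    (p1 x, p2 x) = (p1 y, p2 y) := by
  obtain ⟨h1, h2, h3⟩ := cross x y h
  have h1' := c_cases _ h1
  have h2' := c_cases _ h2
  have h3' := c_cases _ h3
  simp only [map_sub, map_mul] at h1' h2' h3'
  exact aux_par _ _ _ _ _ _ hx hy h1' h2' h3'

/-- If `y` commutes with elements having invariants `(1,0)` and `(0,1)`, twice its imaginary part
vanishes. -/
lemma central_of (x x' y : Q) (h : x * y = y * x) (h' : x' * y = y * x')
    (hx : (p1 x, p2 x) = (1, 0)) (hx' : (p1 x', p2 x') = (0, 1)) :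
    2 * y.imI = 0 ∧ 2 * y.imJ = 0 ∧ 2 * y.imK = 0 := by
  obtain ⟨a1, a2, a3⟩ := cross x y h
  obtain ⟨b1, b2, b3⟩ := cross x' y h'
  have hD : c ((x.imJ * x'.imK - x.imK * x'.imJ) + (x.imK * x'.imI - x.imI * x'.imK) +
      (x.imI * x'.imJ - x.imJ * x'.imI)) = 1 := by
    simp only [p1, p2, Prod.mk.injEq] at hx hx'
    obtain ⟨e1, e2⟩ := hx
    obtain ⟨e3, e4⟩ := hx'
    simp only [map_sub, map_add, map_mul]
    revert e1 e2 e3 e4
    generalize c x.imI = q1
    generalize c x.imJ = q2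
    generalize c x.imK = q3
    generalize c x'.imI = q4
    generalize c x'.imJ = q5
    generalize c x'.imK = q6
    revert q1 q2 q3 q4 q5 q6
    decide
  obtain ⟨w, hw⟩ := c_unit _ hD
  refine ⟨?_, ?_, ?_⟩
  · linear_combination (-(2 * y.imI)) * hw + w * (x'.imI * (a1 + a2 + a3) - x.imI * (b1 + b2 + b3)
      + x.imI * b1 + x.imJ * b2 + x.imK * b3)
  · linear_combination (-(2 * y.imJ)) * hw + w * (x'.imJ * (a1 + a2 + a3) - x.imJ * (b1 + b2 + b3)
      + x.imI * b1 + x.imJ * b2 + x.imK * b3)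
  · linear_combination (-(2 * y.imK)) * hw + w * (x'.imK * (a1 + a2 + a3) - x.imK * (b1 + b2 + b3)
      + x.imI * b1 + x.imJ * b2 + x.imK * b3)

/-- Units of `Q` from explicit inverses. -/
def mkU (x y : Q) (h : x * y = 1) (h' : y * x = 1) : Qˣ := ⟨x, y, h, h'⟩

def uI : Qˣ := mkU ⟨0, 1, 0, 0⟩ ⟨0, -1, 0, 0⟩ (by ext <;> decide) (by ext <;> decide)
def uJ : Qˣ := mkU ⟨0, 0, 1, 0⟩ ⟨0, 0, -1, 0⟩ (by ext <;> decide) (by ext <;> decide)
def u12 : Qˣ := mkU ⟨1, 2, 0, 0⟩ ⟨13, -26, 0, 0⟩ (by ext <;> decide) (by ext <;> decide)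
def u12' : Qˣ := mkU ⟨1, -2, 0, 0⟩ ⟨13, 26, 0, 0⟩ (by ext <;> decide) (by ext <;> decide)
def u5 : Qˣ := mkU ⟨5, 0, 0, 0⟩ ⟨13, 0, 0, 0⟩ (by ext <;> decide) (by ext <;> decide)
def um : Qˣ := mkU ⟨-1, 0, 0, 0⟩ ⟨-1, 0, 0, 0⟩ (by ext <;> decide) (by ext <;> decide)
def a1 : Qˣ := mkU ⟨1, 16, 0, 0⟩ ⟨1, -16, 0, 0⟩ (by ext <;> decide) (by ext <;> decide)
def a2 : Qˣ := mkU ⟨1, 0, 16, 0⟩ ⟨1, 0, -16, 0⟩ (by ext <;> decide) (by ext <;> decide)
def a3 : Qˣ := mkU ⟨1, 0, 0, 16⟩ ⟨1, 0, 0, -16⟩ (by ext <;> decide) (by ext <;> decide)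
def b1 : Qˣ := mkU ⟨1, 32, 0, 0⟩ ⟨1, 32, 0, 0⟩ (by ext <;> decide) (by ext <;> decide)
def b2 : Qˣ := mkU ⟨1, 0, 32, 0⟩ ⟨1, 0, 32, 0⟩ (by ext <;> decide) (by ext <;> decide)
def b3 : Qˣ := mkU ⟨1, 0, 0, 32⟩ ⟨1, 0, 0, 32⟩ (by ext <;> decide) (by ext <;> decide)

lemma odd_pow : ∀ z : ZMod 64, c z = 1 → ∃ n : Fin 16, z = 5 ^ (n : ℕ) ∨ z = -(5 ^ (n : ℕ)) := by
  decide

lemma comm_of_central (x y : Q) (h1 : 2 * x.imI = 0) (h2 : 2 * x.imJ = 0) (h3 : 2 * x.imK = 0) :
    x * y = y * x := by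
  ext
  · simp only [Quaternion.re_mul]; ring
  · simp only [Quaternion.imI_mul]; linear_combination y.imK * h2 - y.imJ * h3
  · simp only [Quaternion.imJ_mul]; linear_combination y.imI * h3 - y.imK * h1
  · simp only [Quaternion.imK_mul]; linear_combination y.imJ * h1 - y.imI * h2

lemma half : ∀ z : ZMod 64, c z = 1 → z = 1 + 2 * ((z.val / 2 : ℕ) : ZMod 64) := by decide

lemma pow_two_pow (y : Q) (j : ℕ) : ∃ z : Q, (1 + 2 * y) ^ (2 ^ j) = 1 + 2 ^ (j + 1) * z := by
  induction j with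
  | zero => exact ⟨y, by simp⟩
  | succ j ih =>
    obtain ⟨z, hz⟩ := ih
    refine ⟨z + 2 ^ j * (z * z), ?_⟩
    rw [pow_succ 2 j, pow_mul, hz, pow_two]
    have h2 : Commute (2 ^ (j + 1) : Q) z := (Commute.ofNat_left 2 z).pow_left _
    have h3 : (2 : Q) ^ (j + 1) * z * (2 ^ (j + 1) * z) = 2 ^ (j + 1 + 1) * (2 ^ j * (z * z)) := by
      calc (2 : Q) ^ (j + 1) * z * (2 ^ (j + 1) * z) = 2 ^ (j + 1) * (z * 2 ^ (j + 1)) * z := by
            noncomm_ring
        _ = 2 ^ (j + 1) * (2 ^ (j + 1) * z) * z := by rw [h2.eq]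
        _ = (2 ^ (j + 1) * 2 ^ (j + 1)) * (z * z) := by noncomm_ring
        _ = (2 ^ (j + 1 + 1) * 2 ^ j) * (z * z) := by
            rw [← pow_add, ← pow_add]
            congr 2
            omega
        _ = _ := by rw [mul_assoc]
    calc (1 + (2 : Q) ^ (j + 1) * z) * (1 + 2 ^ (j + 1) * z)
        = 1 + (2 ^ (j + 1) * 2) * z + 2 ^ (j + 1) * z * (2 ^ (j + 1) * z) := by noncomm_ring
      _ = _ := by rw [h3, ← pow_succ]; noncomm_ring

lemma pow64 (u : Qˣ) : u ^ 64 = 1 := by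
  have h1 : ∃ y : Q, (u : Q) * u = 1 + 2 * y := by
    have h := aug_mul (u : Q) u
    rw [aug_unit u, one_mul] at h
    have e1 : ((u : Q) * u).imI = 2 * ((u : Q).re * (u : Q).imI) := by
      rw [Quaternion.imI_mul]; ring
    have e2 : ((u : Q) * u).imJ = 2 * ((u : Q).re * (u : Q).imJ) := by
      rw [Quaternion.imJ_mul]; ring
    have e3 : ((u : Q) * u).imK = 2 * ((u : Q).re * (u : Q).imK) := by
      rw [Quaternion.imK_mul]; ring
    have c2 : ∀ z, c (2 * z) = 0 := by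
      intro z
      rw [map_mul]
      have : c 2 = 0 := by rfl
      rw [this, zero_mul]
    rw [aug, e1, e2, e3, c2, c2, c2, add_zero, add_zero, add_zero] at h
    have h' := half _ h
    obtain ⟨w, hw⟩ : ∃ w : ZMod 64, ((u : Q) * u).re = 1 + 2 * w := ⟨_, h'⟩
    obtain ⟨y, hy⟩ : ∃ y : Q, y = (⟨w, (u : Q).re * (u : Q).imI,
      (u : Q).re * (u : Q).imJ, (u : Q).re * (u : Q).imK⟩ : Q) := ⟨_, rfl⟩
    refine ⟨y, ?_⟩
    have h2y : 2 * y = y + y := two_mul y
    rw [h2y, hy]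
    ext
    · rw [hw]
      change _ = 1 + (w + w)
      ring
    · rw [e1]; change _ = 0 + (_ + _); ring
    · rw [e2]; change _ = 0 + (_ + _); ring
    · rw [e3]; change _ = 0 + (_ + _); ring
  obtain ⟨y, hy⟩ := h1
  obtain ⟨z, hz⟩ := pow_two_pow y 5
  apply Units.ext
  rw [Units.val_pow_eq_pow_val, Units.val_one]
  calc (u : Q) ^ 64 = ((u : Q) * u) ^ (2 ^ 5) := by
        rw [← pow_two, ← pow_mul]; norm_num
    _ = 1 := by
        rw [hy, hz]
        have : (2 : Q) ^ (5 + 1) = 0 := by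
          have h64 : ((64 : ℕ) : Q) = ((64 : ℕ) : ZMod 64) := by norm_cast
          have h0 : ((64 : ℕ) : ZMod 64) = 0 := by decide
          have : (2 : Q) ^ (5 + 1) = ((64 : ℕ) : Q) := by norm_num
          rw [this, h64, h0]
          rfl
        rw [this, zero_mul, add_zero]

instance : Finite Q := Finite.of_equiv _ (QuaternionAlgebra.equivProd (-1 : ZMod 64) 0 (-1)).symm

section factor

variable {B : Type*} [Group B]

/-- The image of a homomorphism to a commutative group consists, on the relevant central units,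
of squares. -/
lemma squares (hB : ∀ x y : B, x * y = y * x) (f : Qˣ →* B) (u : Qˣ)
    (h1 : 2 * (u : Q).imI = 0) (h2 : 2 * (u : Q).imJ = 0) (h3 : 2 * (u : Q).imK = 0) :
    ∃ y : B, f u = y * y := by
  -- `S v` : `f v` is a square
  have hmul : ∀ v w : Qˣ, (∃ y : B, f v = y * y) → (∃ y : B, f w = y * y) →
      ∃ y : B, f (v * w) = y * y := by
    rintro v w ⟨y, hy⟩ ⟨z, hz⟩
    refine ⟨y * z, ?_⟩
    rw [map_mul, hy, hz]
    calc y * y * (z * z) = y * (y * z) * z := by simp only [mul_assoc]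
      _ = y * (z * y) * z := by rw [hB y z]
      _ = y * z * (y * z) := by simp only [mul_assoc]
  have hsq : ∀ v : Qˣ, ∃ y : B, f (v * v) = y * y := fun v => ⟨f v, map_mul f v v⟩
  have hm : ∃ y : B, f um = y * y := by
    have : um = uI * uI := by
      apply Units.ext
      ext <;> decide
    rw [this]
    exact hsq _
  have h5 : ∃ y : B, f u5 = y * y := by
    have e1 : u5 = u12 * u12' := by
      apply Units.ext
      ext <;> decide
    have e2 : u12' * uJ = uJ * u12 := by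
      apply Units.ext
      ext <;> decide
    have e3 : f u12' = f u12 := by
      have := congrArg f e2
      rw [map_mul, map_mul, hB (f uJ)] at this
      exact mul_right_cancel this
    rw [e1]
    exact ⟨f u12, by rw [map_mul, e3]⟩
  have hb1 : ∃ y : B, f b1 = y * y := by
    have : b1 = a1 * a1 := by
      apply Units.ext
      ext <;> decide
    rw [this]
    exact hsq _
  have hb2 : ∃ y : B, f b2 = y * y := by
    have : b2 = a2 * a2 := by
      apply Units.ext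
      ext <;> decide
    rw [this]
    exact hsq _
  have hb3 : ∃ y : B, f b3 = y * y := by
    have : b3 = a3 * a3 := by
      apply Units.ext
      ext <;> decide
    rw [this]
    exact hsq _
  have h1' : ∃ y : B, f 1 = y * y := ⟨1, by rw [map_one, one_mul]⟩
  have h5n : ∀ n : ℕ, ∃ y : B, f (u5 ^ n) = y * y := by
    intro n
    induction n with
    | zero => rw [pow_zero]; exact h1'
    | succ n ih => rw [pow_succ]; exact hmul _ _ ih h5
  have h5v : ∀ n : ℕ, ((u5 ^ n : Qˣ) : Q) = ⟨5 ^ n, 0, 0, 0⟩ := by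
    intro n
    induction n with
    | zero => rfl
    | succ n ih =>
      rw [pow_succ, Units.val_mul, ih]
      change (⟨5 ^ n, 0, 0, 0⟩ : Q) * ⟨5, 0, 0, 0⟩ = _
      rw [QuaternionAlgebra.mk_mul_mk]
      ext <;> simp [pow_succ]
  -- the real part is odd
  have hre : c (u : Q).re = 1 := by
    have h := aug_unit u
    rw [aug, c_cases _ h1, c_cases _ h2, c_cases _ h3, add_zero, add_zero, add_zero] at h
    exact h
  have h32 : ∀ z : ZMod 64, c z = 1 → z * 32 = 32 := by decide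
  obtain ⟨n, hn⟩ := odd_pow _ hre
  obtain ⟨v, hv, hvS⟩ : ∃ v : Qˣ, (v : Q) = ⟨(u : Q).re, 0, 0, 0⟩ ∧ ∃ y : B, f v = y * y := by
    rcases hn with hn | hn
    · exact ⟨u5 ^ (n : ℕ), by rw [h5v, hn], h5n _⟩
    · refine ⟨um * u5 ^ (n : ℕ), ?_, hmul _ _ hm (h5n _)⟩
      rw [Units.val_mul, h5v, hn]
      change (⟨-1, 0, 0, 0⟩ : Q) * ⟨5 ^ (n : ℕ), 0, 0, 0⟩ = _
      rw [QuaternionAlgebra.mk_mul_mk]
      ext <;> simp
  obtain ⟨t1, ht1, hS1⟩ : ∃ t : Qˣ, (t : Q) = ⟨1, (u : Q).imI, 0, 0⟩ ∧ ∃ y : B, f t = y * y := by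
    rcases two_cases _ h1 with h | h
    · exact ⟨1, by rw [h]; rfl, h1'⟩
    · exact ⟨b1, by rw [h]; rfl, hb1⟩
  obtain ⟨t2, ht2, hS2⟩ : ∃ t : Qˣ, (t : Q) = ⟨1, 0, (u : Q).imJ, 0⟩ ∧ ∃ y : B, f t = y * y := by
    rcases two_cases _ h2 with h | h
    · exact ⟨1, by rw [h]; rfl, h1'⟩
    · exact ⟨b2, by rw [h]; rfl, hb2⟩
  obtain ⟨t3, ht3, hS3⟩ : ∃ t : Qˣ, (t : Q) = ⟨1, 0, 0, (u : Q).imK⟩ ∧ ∃ y : B, f t = y * y := by
    rcases two_cases _ h3 with h | h
    · exact ⟨1, by rw [h]; rfl, h1'⟩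
    · exact ⟨b3, by rw [h]; rfl, hb3⟩
  have hu : u = v * (t1 * (t2 * t3)) := by
    apply Units.ext
    rw [Units.val_mul, Units.val_mul, Units.val_mul, hv, ht1, ht2, ht3]
    have g1 : ∀ z : ZMod 64, c z = 1 → ∀ w : ZMod 64, 2 * w = 0 → z * w = w := by
      intro z hz w hw
      rcases two_cases w hw with rfl | rfl
      · simp
      · exact h32 z hz
    have g2 : ∀ z w : ZMod 64, 2 * z = 0 → 2 * w = 0 → z * w = 0 := by
      intro z w hz hw
      rcases two_cases w hw with rfl | rfl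
      · simp
      · rcases two_cases z hz with rfl | rfl
        · simp
        · decide
    change (u : Q) = (⟨(u : Q).re, 0, 0, 0⟩ : Q) * ((⟨1, (u : Q).imI, 0, 0⟩ : Q) *
      ((⟨1, 0, (u : Q).imJ, 0⟩ : Q) * (⟨1, 0, 0, (u : Q).imK⟩ : Q)))
    rw [QuaternionAlgebra.mk_mul_mk, QuaternionAlgebra.mk_mul_mk, QuaternionAlgebra.mk_mul_mk]
    ext
    · simp [g2 _ _ h1 h2, g2 _ _ h2 h3, g2 _ _ h1 h3]
    · simp [g2 _ _ h1 h2, g2 _ _ h2 h3, g2 _ _ h1 h3, g1 _ hre _ h1]
    · simp [g2 _ _ h1 h2, g2 _ _ h2 h3, g2 _ _ h1 h3, g1 _ hre _ h2]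
    · simp [g2 _ _ h1 h2, g2 _ _ h2 h3, g2 _ _ h1 h3, g1 _ hre _ h3]
  rw [hu]
  exact hmul _ _ hvS (hmul _ _ hS1 (hmul _ _ hS2 hS3))

/-- If a direct factor has trivial invariants, it is trivial. -/
lemma factor_trivial {A : Type*} [Group A] (e : Qˣ ≃* A × B)
    (hB : ∀ b : B, (p1 (e.symm (1, b)), p2 (e.symm (1, b))) = (0, 0)) (h2 : Finite B) :
    Subsingleton B := by
  -- elements of `B` commute with everything
  have hAB : ∀ (a : A) (b : B), (e.symm (a, 1) : Q) * e.symm (1, b) =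
      e.symm (1, b) * e.symm (a, 1) := by
    intro a b
    rw [← Units.val_mul, ← Units.val_mul, ← map_mul, ← map_mul]
    simp
  have hdec : ∀ g : Qˣ, g = e.symm ((e g).1, 1) * e.symm (1, (e g).2) := by
    intro g
    rw [← map_mul]
    simp
  have hI : (p1 (e.symm ((e uI).1, 1)), p2 (e.symm ((e uI).1, 1))) = (1, 0) := by
    have h1 : p1 uI = 1 := by decide
    have h2 : p2 uI = 0 := by decide
    have hb := hB (e uI).2
    rw [Prod.mk.injEq] at hb
    rw [hdec uI, p1_mul, hb.1, add_zero] at h1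
    rw [hdec uI, p2_mul, hb.2, add_zero] at h2
    rw [h1, h2]
  have hJ : (p1 (e.symm ((e uJ).1, 1)), p2 (e.symm ((e uJ).1, 1))) = (0, 1) := by
    have h1 : p1 uJ = 0 := by decide
    have h2 : p2 uJ = 1 := by decide
    have hb := hB (e uJ).2
    rw [Prod.mk.injEq] at hb
    rw [hdec uJ, p1_mul, hb.1, add_zero] at h1
    rw [hdec uJ, p2_mul, hb.2, add_zero] at h2
    rw [h1, h2]
  have hcen : ∀ b : B, 2 * (e.symm (1, b) : Q).imI = 0 ∧ 2 * (e.symm (1, b) : Q).imJ = 0 ∧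
      2 * (e.symm (1, b) : Q).imK = 0 := fun b =>
    central_of _ _ _ (hAB _ b) (hAB _ b) hI hJ
  have hinj : ∀ x y : B, e.symm (1, x) = e.symm (1, y) → x = y := by
    intro x y h
    exact congrArg Prod.snd (e.symm.injective h)
  have hcomm : ∀ x y : B, x * y = y * x := by
    intro x y
    apply hinj
    have h1 : ((1 : A), x * y) = (1, x) * (1, y) := by simp
    have h2 : ((1 : A), y * x) = (1, y) * (1, x) := by simp
    rw [h1, h2, map_mul, map_mul]
    apply Units.ext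
    rw [Units.val_mul, Units.val_mul]
    obtain ⟨g1, g2, g3⟩ := hcen x
    exact comm_of_central _ _ g1 g2 g3
  have hsq : Function.Surjective fun b : B => b * b := by
    intro b
    obtain ⟨g1, g2, g3⟩ := hcen b
    obtain ⟨y, hy⟩ := squares hcomm ((MonoidHom.snd A B).comp e.toMonoidHom) (e.symm (1, b)) g1 g2 g3
    refine ⟨y, ?_⟩
    have : ((MonoidHom.snd A B).comp e.toMonoidHom) (e.symm (1, b)) = b := by
      change (e (e.symm (1, b))).2 = b
      rw [e.apply_symm_apply]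
    change y * y = b
    rw [← hy, this]
  have hsqi : Function.Injective fun b : B => b * b := Finite.injective_iff_surjective.mpr hsq
  have h64 : ∀ b : B, b ^ (2 ^ 6) = 1 := by
    intro b
    apply hinj
    have h1 : ((1 : A), b ^ (2 ^ 6)) = (1, b) ^ 64 := by
      rw [Prod.pow_mk, one_pow, show 2 ^ 6 = 64 from rfl]
    rw [h1, map_pow, pow64]
    exact (map_one e.symm).symm
  have hk : ∀ k : ℕ, ∀ b : B, b ^ (2 ^ k) = 1 → b = 1 := by
    intro k
    induction k with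
    | zero => intro b hb; simpa using hb
    | succ k ih =>
      intro b hb
      apply ih
      apply hsqi
      change b ^ 2 ^ k * b ^ 2 ^ k = 1 * 1
      rw [← pow_two, ← pow_mul, ← pow_succ, hb, one_mul]
  exact ⟨fun x y => (hk 6 x (h64 x)).trans (hk 6 y (h64 y)).symm⟩

end factor

lemma aux_pp : ∀ p : ZMod 2 × ZMod 2, p + p = 0 := by decide

lemma aux_pair (p x y z w : ZMod 2 × ZMod 2) (hx : x = (0, 0) ∨ x = p) (hy : y = (0, 0) ∨ y = p)
    (hz : z = (0, 0) ∨ z = p) (hw : w = (0, 0) ∨ w = p) (h1 : x + y = (1, 0))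
    (h2 : z + w = (0, 1)) : False := by
  have key : ∀ x y : ZMod 2 × ZMod 2, (x = (0, 0) ∨ x = p) → (y = (0, 0) ∨ y = p) →
      x + y ≠ 0 → x + y = p := by
    intro x y hx hy h
    rcases hx with rfl | rfl <;> rcases hy with rfl | rfl
    · exact absurd rfl h
    · exact zero_add _
    · exact add_zero _
    · exact absurd (aux_pp _) h
  have e1 := key x y hx hy (by rw [h1]; decide)
  have e2 := key z w hz hw (by rw [h2]; decide)
  rw [h1] at e1
  rw [h2, ← e1] at e2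
  revert e2
  decide

/-- The group is indecomposable. -/
theorem indecomposable (A B : Type*) [Group A] [Group B] [Nontrivial A] [Nontrivial B]
    (e : Qˣ ≃* A × B) : False := by
  have hfin : Finite (A × B) := Finite.of_equiv _ e.toEquiv
  have hfinB : Finite B := Finite.of_injective (fun b : B => ((1 : A), b))
    fun x y h => congrArg Prod.snd h
  have hfinA : Finite A := Finite.of_injective (fun a : A => (a, (1 : B)))
    fun x y h => congrArg Prod.fst h
  by_cases hB : ∀ b : B, (p1 (e.symm (1, b)), p2 (e.symm (1, b))) = (0, 0)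
  · exact not_subsingleton B (factor_trivial e hB hfinB)
  by_cases hA : ∀ a : A, (p1 (e.symm (a, 1)), p2 (e.symm (a, 1))) = (0, 0)
  · exact not_subsingleton A (factor_trivial (e.trans MulEquiv.prodComm) hA hfinA)
  push Not at hA hB
  obtain ⟨a0, ha0⟩ := hA
  obtain ⟨b0, hb0⟩ := hB
  have hAB : ∀ (a : A) (b : B), (e.symm (a, 1) : Q) * e.symm (1, b) =
      e.symm (1, b) * e.symm (a, 1) := by
    intro a b
    rw [← Units.val_mul, ← Units.val_mul, ← map_mul, ← map_mul]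
    simp
  have hdec : ∀ g : Qˣ, g = e.symm ((e g).1, 1) * e.symm (1, (e g).2) := by
    intro g
    rw [← map_mul]
    simp
  obtain ⟨p, hp⟩ : ∃ p, p = (p1 (e.symm (1, b0)), p2 (e.symm (1, b0))) := ⟨_, rfl⟩
  have h1 : ∀ a : A, (p1 (e.symm (a, 1)), p2 (e.symm (a, 1))) = (0, 0) ∨
      (p1 (e.symm (a, 1)), p2 (e.symm (a, 1))) = p := by
    intro a
    by_cases h : (p1 (e.symm (a, 1)), p2 (e.symm (a, 1))) = (0, 0)
    · exact Or.inl h
    · right
      rw [hp]
      exact par _ _ (hAB a b0) h hb0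
  have h2 : ∀ b : B, (p1 (e.symm (1, b)), p2 (e.symm (1, b))) = (0, 0) ∨
      (p1 (e.symm (1, b)), p2 (e.symm (1, b))) = p := by
    intro b
    by_cases h : (p1 (e.symm (1, b)), p2 (e.symm (1, b))) = (0, 0)
    · exact Or.inl h
    · right
      rw [← par _ _ (hAB a0 b) ha0 h, hp]
      exact par _ _ (hAB a0 b0) ha0 hb0
  have hg : ∀ g : Qˣ, (p1 (e.symm ((e g).1, 1)), p2 (e.symm ((e g).1, 1))) +
      (p1 (e.symm (1, (e g).2)), p2 (e.symm (1, (e g).2))) = (p1 g, p2 g) := by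
    intro g
    rw [Prod.mk_add_mk, ← p1_mul, ← p2_mul, ← hdec]
  exact aux_pair p _ _ _ _ (h1 (e uI).1) (h2 (e uI).2) (h1 (e uJ).1) (h2 (e uJ).2)
    ((hg uI).trans (by decide)) ((hg uJ).trans (by decide))

/-- `1 + i + j`, a unit of order 64. -/
def g : Qˣ := mkU ⟨1, 1, 1, 0⟩ ⟨43, -43, -43, 0⟩ (by ext <;> decide) (by ext <;> decide)

lemma g32 : g ^ 32 ≠ 1 := by
  intro h
  have h2 : ((g ^ 2 : Qˣ) : Q) = ⟨-1, 2, 2, 0⟩ := by
    rw [pow_two, Units.val_mul]
    ext <;> decide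
  have h4 : ((g ^ 4 : Qˣ) : Q) = ⟨-7, -4, -4, 0⟩ := by
    rw [show g ^ 4 = g ^ 2 * g ^ 2 from by rw [← pow_add], Units.val_mul, h2]
    ext <;> decide
  have h8 : ((g ^ 8 : Qˣ) : Q) = ⟨17, -8, -8, 0⟩ := by
    rw [show g ^ 8 = g ^ 4 * g ^ 4 from by rw [← pow_add], Units.val_mul, h4]
    ext <;> decide
  have h16 : ((g ^ 16 : Qˣ) : Q) = ⟨33, -16, -16, 0⟩ := by
    rw [show g ^ 16 = g ^ 8 * g ^ 8 from by rw [← pow_add], Units.val_mul, h8]
    ext <;> decide
  have h32 : ((g ^ 32 : Qˣ) : Q) = ⟨1, 32, 32, 0⟩ := by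
    rw [show g ^ 32 = g ^ 16 * g ^ 16 from by rw [← pow_add], Units.val_mul, h16]
    ext <;> decide
  rw [h] at h32
  have h3 := congrArg (fun z : Q => z.imI) h32
  revert h3
  decide

theorem not_char_two (R : Type*) [Ring R] [Finite R] [CharP R 2] (φ : Rˣ ≃* Qˣ) : False := by
  have : Fact (Nat.Prime 2) := ⟨Nat.prime_two⟩
  let _ : Algebra (ZMod 2) R := ZMod.algebra R 2
  obtain ⟨u, hu⟩ : ∃ u : Rˣ, φ u = g := ⟨φ.symm g, φ.apply_symm_apply g⟩
  have hu64 : u ^ 64 = 1 := by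
    apply φ.injective
    rw [map_pow, pow64, map_one]
  have hu32 : u ^ 32 ≠ 1 := by
    intro h
    have := congrArg φ h
    rw [map_pow, hu, map_one] at this
    exact g32 this
  obtain ⟨n, hn⟩ : ∃ n : R, n = (u : R) - 1 := ⟨_, rfl⟩
  have hpow : ∀ k : ℕ, n ^ (2 ^ k) = (u : R) ^ (2 ^ k) - 1 := by
    intro k
    rw [hn, sub_pow_char_pow_of_commute 2 k (Commute.one_right (u : R)), one_pow]
  have hn64 : n ^ 64 = 0 := by
    rw [show 64 = 2 ^ 6 from rfl, hpow, show 2 ^ 6 = 64 from rfl, ← Units.val_pow_eq_pow_val, hu64,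
      Units.val_one, sub_self]
  have hn32 : n ^ 32 ≠ 0 := by
    intro h
    apply hu32
    rw [show 32 = 2 ^ 5 from rfl, hpow, show 2 ^ 5 = 32 from rfl, ← Units.val_pow_eq_pow_val,
      sub_eq_zero] at h
    exact Units.ext h
  -- the minimal polynomial of `n`
  have hdvd : minpoly (ZMod 2) n ∣ Polynomial.X ^ 64 := minpoly.dvd _ _ (by simp [hn64])
  have hint : IsIntegral (ZMod 2) n := ⟨Polynomial.X ^ 64, Polynomial.monic_X_pow 64, by simp [hn64]⟩
  obtain ⟨m, hm, hass⟩ := (dvd_prime_pow Polynomial.prime_X 64).mp hdvd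
  have hmin : minpoly (ZMod 2) n = Polynomial.X ^ m :=
    Polynomial.eq_of_monic_of_associated (minpoly.monic hint) (Polynomial.monic_X_pow m) hass
  have hnm : n ^ m = 0 := by
    have := minpoly.aeval (ZMod 2) n
    rw [hmin] at this
    simpa using this
  have hm33 : 33 ≤ m := by
    by_contra hcon
    push Not at hcon
    apply hn32
    rw [show 32 = m + (32 - m) by omega, pow_add, hnm, zero_mul]
  have hdeg : (minpoly (ZMod 2) n).natDegree = m := by rw [hmin, Polynomial.natDegree_X_pow]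
  have hli := linearIndependent_pow (K := ZMod 2) n
  have hli' : LinearIndependent (ZMod 2) (fun j : Fin 32 => n ^ ((j : ℕ) + 1)) := by
    have := hli.comp (fun j : Fin 32 => (⟨(j : ℕ) + 1, by rw [hdeg]; omega⟩ :
      Fin (minpoly (ZMod 2) n).natDegree)) (by
        intro i j h
        simp only [Fin.mk.injEq, add_left_inj] at h
        exact Fin.ext h)
    exact this
  have hnil : ∀ c : Fin 32 → ZMod 2, IsNilpotent (∑ j, c j • n ^ ((j : ℕ) + 1)) := by
    intro c
    have : ∑ j, c j • n ^ ((j : ℕ) + 1) = n * ∑ j, c j • n ^ (j : ℕ) := by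
      rw [Finset.mul_sum]
      refine Finset.sum_congr rfl fun j _ => ?_
      rw [mul_smul_comm, ← pow_succ']
    rw [this]
    apply Commute.isNilpotent_mul_right _ ⟨64, hn64⟩
    apply Commute.sum_right
    intro j _
    exact ((Commute.refl n).pow_right _).smul_right _
  let F : (Fin 32 → ZMod 2) → Rˣ := fun c => (hnil c).isUnit_one_add.unit
  have hF : Function.Injective F := by
    intro c c' h
    have h1 := congrArg Units.val h
    rw [IsUnit.unit_spec, IsUnit.unit_spec] at h1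
    have h2 := add_left_cancel h1
    exact hli'.fintypeLinearCombination_injective h2
  have hcard : Nat.card (Fin 32 → ZMod 2) ≤ Nat.card Rˣ := Nat.card_le_card_of_injective F hF
  have hcard2 : Nat.card Rˣ = Nat.card Qˣ := Nat.card_congr φ.toEquiv
  have hcard3 : Nat.card Qˣ ≤ Nat.card Q := Nat.card_le_card_of_injective _ Units.val_injective
  have hcard4 : Nat.card Q = 64 ^ 4 := by
    have : Nat.card Q = Nat.card (ZMod 64 × ZMod 64 × ZMod 64 × ZMod 64) :=
      Nat.card_congr (QuaternionAlgebra.equivProd (-1 : ZMod 64) 0 (-1))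
    rw [this]
    simp
  have hcard5 : Nat.card (Fin 32 → ZMod 2) = 2 ^ 32 := by simp
  rw [hcard2, hcard5] at hcard
  rw [hcard4] at hcard3
  have := hcard.trans hcard3
  norm_num at this

/-- `G` is realizable in characteristic `n`. -/
def RealizableInChar (G : Type) [Group G] (n : ℕ) : Prop :=
  ∃ (R : Type) (_ : Ring R), Finite R ∧ CharP R n ∧ Nonempty (Rˣ ≃* G)

/-- `G` is indecomposable: it is not a direct product of two nontrivial groups. -/
def Indecomposable (G : Type) [Group G] : Prop :=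
  ∀ (A B : Type) [Group A] [Group B], Nontrivial A → Nontrivial B → IsEmpty (G ≃* A × B)

/-- There is a finite nontrivial indecomposable `2`-group which is realizable in characteristic
`2 ^ 6 = 64` but not in characteristic `2`. -/
theorem result : ∃ (G : Type) (_ : Group G), Finite G ∧ Nontrivial G ∧ IsPGroup 2 G ∧
    Indecomposable G ∧ (∃ m : ℕ, 2 ≤ m ∧ RealizableInChar G (2 ^ m)) ∧
    ¬ RealizableInChar G 2 := by
  refine ⟨Qˣ, inferInstance, inferInstance, ?_, ?_, ?_, ⟨6, by norm_num, Q, inferInstance,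
    inferInstance, ?_, ⟨MulEquiv.refl _⟩⟩, ?_⟩
  · exact ⟨⟨g ^ 32, 1, g32⟩⟩
  · intro u
    exact ⟨6, pow64 u⟩
  · intro A B _ _ _ _
    exact ⟨fun e => indecomposable A B e⟩
  · rw [show 2 ^ 6 = 64 from rfl]
    exact charP_of_injective_algebraMap (QuaternionAlgebra.algebraMap_injective (R := ZMod 64)) 64
  · rintro ⟨R, _, _, _, ⟨φ⟩⟩
    exact not_char_two R φ

end Pool.Agent.Results.MP_aafbbc_al.Quaternion64
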